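import Pool.Agent.Lib.MP_5fcc10_co_lin.MidDefs

/-! Module BYP of the odd case: hexagons in the middle levels. -/

set_option linter.unusedSectionVars false

namespace Pool.Agent.SK.Lin.H37

open Finset
open scoped symmDiff

variable {n p : ℕ}

/-! ### the parity of a hexagon -/

lemma two2 : ∀ x : ZMod 2, x + x = 0 := by decide

/-- the indicator of `e < f` with values in `ZMod 2` -/
def ind (e f : Fin n) : ZMod 2 := if e < f then 1 else 0

lemma ind_self (e : Fin n) : ind e e = 0 := if_neg (lt_irrefl e)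

lemma ind_add {e f : Fin n} (h : e ≠ f) : ind e f + ind f e = 1 := by
  unfold ind
  rcases lt_or_gt_of_ne h with h | h
  · rw [if_pos h, if_neg (not_lt.2 h.le), add_zero]
  · rw [if_neg (not_lt.2 h.le), if_pos h, zero_add]

lemma pos_tg' (v : Finset (Fin n)) (e f : Fin n) : pos (tg v e) f = pos v f + ind e f :=
  pos_tg v e f

lemma tg_end (x : Finset (Fin n)) (a b c : Fin n) :
    tg (tg (tg (tg (tg x b) c) a) b) c = tg x a := by
  rw [tg_comm (tg (tg x b) c) a b, tg_comm (tg x b) c b, tg_tg, tg_comm (tg x c) a c, tg_tg]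

/-- a hexagon has an odd number of edges of each type -/
lemma hexagon (ψ : Ix n → Lb p) (x : Finset (Fin n)) (a b c : Fin n) (hab : a ≠ b) (hbc : b ≠ c)
    (hac : a ≠ c) :
    ty ψ x b + ty ψ (tg x b) c + ty ψ (tg (tg x b) c) a + ty ψ (tg (tg (tg x b) c) a) b
      + ty ψ (tg (tg (tg (tg x b) c) a) b) c + ty ψ x a = 1 := by
  have h1 := ind_add hab
  have h2 := ind_add hbc
  have h3 := ind_add hac
  have e5 : tg (tg (tg (tg (tg x b) c) a) b) c = tg x a := tg_end x a b c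
  unfold ty
  rw [e5]
  simp only [pos_tg', ind_self, add_zero]
  generalize bt ψ x = B0
  generalize bt ψ (tg x b) = B1
  generalize bt ψ (tg (tg x b) c) = B2
  generalize bt ψ (tg (tg (tg x b) c) a) = B3
  generalize bt ψ (tg (tg (tg (tg x b) c) a) b) = B4
  generalize bt ψ (tg x a) = B5
  generalize pos x a = pa
  generalize pos x b = pb
  generalize pos x c = pc
  have t0 := two2 B0
  have t1 := two2 B1
  have t2 := two2 B2
  have t3 := two2 B3
  have t4 := two2 B4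
  have t5 := two2 B5
  have ta := two2 pa
  have tb := two2 pb
  have tc := two2 pc
  have t6 := two2 (ind b c)
  have t7 := two2 (1 : ZMod 2)
  linear_combination t0 + t1 + t2 + t3 + t4 + t5 + ta + tb + tc + t6 + h1 + h2 + h3 + t7

lemma hex_of_four {ψ : Ix n → Lb p} {s : ZMod 2} {x : Finset (Fin n)} {a b c : Fin n}
    (hab : a ≠ b) (hbc : b ≠ c) (hac : a ≠ c) (h0 : ty ψ x a ≠ s) (h1 : ty ψ x b = s)
    (h2 : ty ψ (tg x b) c = s) (h3 : ty ψ (tg (tg x b) c) a = s)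
    (h4 : ty ψ (tg (tg (tg x b) c) a) b = s) : Hex ψ s x a b c := by
  refine ⟨h1, h2, h3, h4, ?_⟩
  have h := hexagon ψ x a b c hab hbc hac
  rw [h1, h2, h3, h4] at h
  have key : ∀ s u t : ZMod 2, t ≠ s → s + s + s + s + u + t = 1 → u = s := by decide
  exact key s _ _ h0 h

/-! ### locality -/

theorem dep_byp {n p k : ℕ} (s : ZMod 2) (x : Finset (Fin n)) :
    Dep (BypBad (p := p) k s x) (hamI x 3) := by
  intro φ ψ h
  have hb : ∀ u, u ∈ ham x 3 → bt φ u = bt ψ u := by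
    intro u hu
    unfold bt
    rw [h (u, none) (mem_hamI_none.2 hu)]
  have hty : ∀ u e, u ∈ ham x 3 → tg u e ∈ ham x 3 → ty φ u e = ty ψ u e := by
    intro u e h1 h2
    unfold ty
    rw [hb u h1, hb _ h2]
  have m0 : x ∈ ham x 3 := ham_self x 3
  have m1 : ∀ a, tg x a ∈ ham x 3 := fun a => ham_mono (by norm_num) (tg_mem_ham x a)
  have m1' : ∀ a, tg x a ∈ ham x 1 := fun a => tg_mem_ham x a
  have m2' : ∀ b c, tg (tg x b) c ∈ ham x 2 := fun b c => ham_trans (m1' b) (tg_mem_ham _ c)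
  have m2 : ∀ b c, tg (tg x b) c ∈ ham x 3 := fun b c => ham_mono (by norm_num) (m2' b c)
  have m3 : ∀ b c a, tg (tg (tg x b) c) a ∈ ham x 3 :=
    fun b c a => ham_trans (m2' b c) (tg_mem_ham _ a)
  have m4 : ∀ b c a, tg (tg (tg (tg x b) c) a) b ∈ ham x 3 := by
    intro b c a
    rw [tg_comm (tg (tg x b) c) a b, tg_comm (tg x b) c b, tg_tg]
    exact m2 c a
  have m5 : ∀ b c a, tg (tg (tg (tg (tg x b) c) a) b) c ∈ ham x 3 := by
    intro b c a
    rw [tg_end]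
    exact m1 a
  have hHex : ∀ a b c, Hex φ s x a b c ↔ Hex ψ s x a b c := by
    intro a b c
    unfold Hex
    rw [hty x b m0 (m1 b), hty (tg x b) c (m1 b) (m2 b c), hty _ a (m2 b c) (m3 b c a),
      hty _ b (m3 b c a) (m4 b c a), hty _ c (m4 b c a) (m5 b c a)]
  have h0 : ∀ a, ty φ x a = ty ψ x a := fun a => hty x a m0 (m1 a)
  unfold BypBad
  simp only [hHex, h0]

/-! ### the private vertices of a hexagon -/

/-- the private vertices -/
def pv (x : Finset (Fin n)) (a b c : Fin n) : Fin 4 → Finset (Fin n) :=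
  ![tg x b, tg (tg x b) c, tg (tg (tg x b) c) a, tg (tg (tg (tg x b) c) a) b]

lemma vmem {x : Finset (Fin n)} {a b c : Fin n} (ha : a ∉ x) (hb : b ∉ x) (hab : a ≠ b)
    (hc : c ∈ x) :
    (∀ d, d ∈ tg x b ↔ (d ∈ x ∨ d = b)) ∧
    (∀ d, d ∈ tg (tg x b) c ↔ ((d ∈ x ∧ d ≠ c) ∨ d = b)) ∧
    (∀ d, d ∈ tg (tg (tg x b) c) a ↔ ((d ∈ x ∧ d ≠ c) ∨ d = b ∨ d = a)) ∧
    (∀ d, d ∈ tg (tg (tg (tg x b) c) a) b ↔ ((d ∈ x ∧ d ≠ c) ∨ d = a)) := by
  have hcb : c ≠ b := fun h => hb (h ▸ hc)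
  have hca : c ≠ a := fun h => ha (h ▸ hc)
  have hba : b ≠ a := fun h => hab h.symm
  have hbc : b ≠ c := fun h => hcb h.symm
  have hac : a ≠ c := fun h => hca h.symm
  have v0 : ∀ d, d ∈ tg x b ↔ (d ∈ x ∨ d = b) := by
    intro d
    rw [mem_tg]
    constructor
    · rintro (h | h)
      · exact Or.inl h.1
      · exact Or.inr h.1
    · rintro (h | h)
      · exact Or.inl ⟨h, fun h' => hb (h' ▸ h)⟩
      · exact Or.inr ⟨h, h ▸ hb⟩
  have v1 : ∀ d, d ∈ tg (tg x b) c ↔ ((d ∈ x ∧ d ≠ c) ∨ d = b) := by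
    intro d
    rw [mem_tg, v0]
    constructor
    · rintro (⟨h | h, h'⟩ | h)
      · exact Or.inl ⟨h, h'⟩
      · exact Or.inr h
      · exact absurd (Or.inl (h.1 ▸ hc)) h.2
    · rintro (h | h)
      · exact Or.inl ⟨Or.inl h.1, h.2⟩
      · exact Or.inl ⟨Or.inr h, h ▸ hbc⟩
  have v2 : ∀ d, d ∈ tg (tg (tg x b) c) a ↔ ((d ∈ x ∧ d ≠ c) ∨ d = b ∨ d = a) := by
    intro d
    rw [mem_tg, v1]
    constructor
    · rintro (⟨h | h, h'⟩ | h)
      · exact Or.inl h
      · exact Or.inr (Or.inl h)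
      · exact Or.inr (Or.inr h.1)
    · rintro (h | h | h)
      · exact Or.inl ⟨Or.inl h, fun h' => ha (h' ▸ h.1)⟩
      · exact Or.inl ⟨Or.inr h, h ▸ hba⟩
      · refine Or.inr ⟨h, ?_⟩
        rintro (h' | h')
        · exact ha (h ▸ h'.1)
        · exact hab (h.symm.trans h')
  have v3 : ∀ d, d ∈ tg (tg (tg (tg x b) c) a) b ↔ ((d ∈ x ∧ d ≠ c) ∨ d = a) := by
    intro d
    rw [mem_tg, v2]
    constructor
    · rintro (⟨h | h | h, h'⟩ | h)
      · exact Or.inl h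
      · exact absurd h h'
      · exact Or.inr h
      · exact absurd (Or.inr (Or.inl h.1)) h.2
    · rintro (h | h)
      · exact Or.inl ⟨Or.inl h, fun h' => hb (h' ▸ h.1)⟩
      · exact Or.inl ⟨Or.inr (Or.inr h), h ▸ hab⟩
  exact ⟨v0, v1, v2, v3⟩

lemma pv_spec {x : Finset (Fin n)} {a b c : Fin n} (ha : a ∉ x) (hb : b ∉ x) (hab : a ≠ b)
    (hc : c ∈ x) (j : Fin 4) :
    (∀ d ∈ x, d ∉ pv x a b c j → d = c) ∧ (∀ d, d ∉ x → d ≠ a → d ∈ pv x a b c j → d = b) ∧
      (c ∉ pv x a b c j ∨ b ∈ pv x a b c j) := by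
  have hcb : c ≠ b := fun h => hb (h ▸ hc)
  have hca : c ≠ a := fun h => ha (h ▸ hc)
  have hba : b ≠ a := fun h => hab h.symm
  have hbc : b ≠ c := fun h => hcb h.symm
  have hac : a ≠ c := fun h => hca h.symm
  obtain ⟨v0, v1, v2, v3⟩ := vmem ha hb hab hc
  fin_cases j
  · refine ⟨fun d hd h => absurd ((v0 d).2 (Or.inl hd)) h, fun d hd _ h => ?_,
      Or.inr ((v0 b).2 (Or.inr rfl))⟩
    rcases (v0 d).1 h with h | h
    · exact absurd h hd
    · exact h
  · refine ⟨fun d hd h => ?_, fun d hd _ h => ?_, Or.inr ((v1 b).2 (Or.inr rfl))⟩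
    · by_contra hne
      exact h ((v1 d).2 (Or.inl ⟨hd, hne⟩))
    · rcases (v1 d).1 h with h | h
      · exact absurd h.1 hd
      · exact h
  · refine ⟨fun d hd h => ?_, fun d hd hda h => ?_, Or.inr ((v2 b).2 (Or.inr (Or.inl rfl)))⟩
    · by_contra hne
      exact h ((v2 d).2 (Or.inl ⟨hd, hne⟩))
    · rcases (v2 d).1 h with h | h | h
      · exact absurd h.1 hd
      · exact h
      · exact absurd h hda
  · refine ⟨fun d hd h => ?_, fun d hd hda h => ?_, Or.inl ?_⟩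
    · by_contra hne
      exact h ((v3 d).2 (Or.inl ⟨hd, hne⟩))
    · rcases (v3 d).1 h with h | h
      · exact absurd h.1 hd
      · exact absurd h hda
    · intro h
      rcases (v3 c).1 h with h | h
      · exact h.2 rfl
      · exact hca h

lemma tg_ne (x : Finset (Fin n)) (a : Fin n) : tg x a ≠ x := by
  intro h
  have h1 : a ∈ tg x a ↔ a ∈ x := by rw [h]
  rw [mem_tg] at h1
  tauto

lemma tg_ne2 (x : Finset (Fin n)) {a b : Fin n} (hab : a ≠ b) : tg (tg x a) b ≠ x := by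
  intro h
  have h1 : a ∈ tg (tg x a) b ↔ a ∈ x := by rw [h]
  rw [mem_tg, mem_tg] at h1
  tauto

lemma tg_ne3 (x : Finset (Fin n)) {a b c : Fin n} (hab : a ≠ b) (hac : a ≠ c) :
    tg (tg (tg x a) b) c ≠ x := by
  intro h
  have h1 : a ∈ tg (tg (tg x a) b) c ↔ a ∈ x := by rw [h]
  rw [mem_tg, mem_tg, mem_tg] at h1
  tauto

lemma pv_injective {x : Finset (Fin n)} {a b c : Fin n} (hab : a ≠ b) (hbc : b ≠ c)
    (hac : a ≠ c) : Function.Injective (pv x a b c) := by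
  have e3 : tg (tg (tg (tg x b) c) a) b = tg (tg x c) a := by
    rw [tg_comm (tg (tg x b) c) a b, tg_comm (tg x b) c b, tg_tg]
  have n01 : tg x b ≠ tg (tg x b) c := (tg_ne _ c).symm
  have n02 : tg x b ≠ tg (tg (tg x b) c) a := (tg_ne2 _ hac.symm).symm
  have n03 : tg x b ≠ tg (tg (tg (tg x b) c) a) b := (tg_ne3 _ hac.symm hbc.symm).symm
  have n12 : tg (tg x b) c ≠ tg (tg (tg x b) c) a := (tg_ne _ a).symm
  have n13 : tg (tg x b) c ≠ tg (tg (tg (tg x b) c) a) b := (tg_ne2 _ hab).symm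
  have n23 : tg (tg (tg x b) c) a ≠ tg (tg (tg (tg x b) c) a) b := (tg_ne _ b).symm
  intro i j h
  fin_cases i <;> fin_cases j
  · rfl
  · exact absurd h n01
  · exact absurd h n02
  · exact absurd h n03
  · exact absurd h n01.symm
  · rfl
  · exact absurd h n12
  · exact absurd h n13
  · exact absurd h n02.symm
  · exact absurd h n12.symm
  · rfl
  · exact absurd h n23
  · exact absurd h n03.symm
  · exact absurd h n13.symm
  · exact absurd h n23.symm
  · rfl

/-! ### averages of bits -/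

lemma card_Lb' [NeZero p] : (Fintype.card (Lb p) : ℝ) = 2 * p := by
  rw [Fintype.card_prod, ZMod.card, ZMod.card]
  push_cast; ring

lemma sum_snd' [NeZero p] (c : ZMod 2) : ∑ b : Lb p, (if b.2 = c then (1:ℝ) else 0) = p := by
  rw [Fintype.sum_prod_type]
  simp only [sum_ite_eq', mem_univ, if_true]
  rw [sum_const, card_univ, ZMod.card, nsmul_eq_mul, mul_one]

lemma E_bits [NeZero p] {m : ℕ} (w : Fin m → Finset (Fin n)) (hw : Function.Injective w)
    (γ : Fin m → ZMod 2) :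
    E (fun φ : Ix n → Lb p => ∏ j : Fin m,
      (if bt φ (w j) = γ j then (1:ℝ) else 0)) = (1 / 2) ^ m := by
  rw [E_prod univ (fun j => ({(w j, none)} : Finset (Ix n)))]
  · have h1 : ∀ j : Fin m, E (fun φ : Ix n → Lb p => if bt φ (w j) = γ j then (1:ℝ) else 0)
        = 1 / 2 := by
      intro j
      have h2 := E_coord (V := Ix n) (κ := Lb p) (w j, none)
        (fun b : Lb p => if b.2 = γ j then (1:ℝ) else 0)
      rw [sum_snd', card_Lb'] at h2
      have h3 : E (fun φ : Ix n → Lb p => if bt φ (w j) = γ j then (1:ℝ) else 0)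
        = (p:ℝ) / (2 * p) := h2
      rw [h3]
      have : (p:ℝ) ≠ 0 := by exact_mod_cast NeZero.ne p
      field_simp
    rw [prod_congr rfl (fun j _ => h1 j), prod_const, card_univ, Fintype.card_fin]
  · intro i _ j _ hij
    rw [disjoint_singleton]
    intro h
    exact hij (hw (congrArg Prod.fst h))
  · intro j _ φ φ' h
    have : bt φ (w j) = bt φ' (w j) := by
      unfold bt
      rw [h _ (mem_singleton_self _)]
    simp only [this]

/-- the values of the bits of the private vertices that make the hexagon good -/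
def gm (x : Finset (Fin n)) (a b c : Fin n) (s B : ZMod 2) : Fin 4 → ZMod 2 :=
  ![s + pos x b + B,
    s + pos (tg x b) c + (s + pos x b + B),
    s + pos (tg (tg x b) c) a + (s + pos (tg x b) c + (s + pos x b + B)),
    s + pos (tg (tg (tg x b) c) a) b
      + (s + pos (tg (tg x b) c) a + (s + pos (tg x b) c + (s + pos x b + B)))]

lemma hex_of_bits {ψ : Ix n → Lb p} {s : ZMod 2} {x : Finset (Fin n)} {a b c : Fin n}
    (hab : a ≠ b) (hbc : b ≠ c) (hac : a ≠ c) (h0 : ty ψ x a ≠ s)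
    (h : ∀ j, bt ψ (pv x a b c j) = gm x a b c s (bt ψ x) j) : Hex ψ s x a b c := by
  have g0 : bt ψ (tg x b) = s + pos x b + bt ψ x := h 0
  have g1 : bt ψ (tg (tg x b) c) = s + pos (tg x b) c + (s + pos x b + bt ψ x) := h 1
  have g2 : bt ψ (tg (tg (tg x b) c) a)
    = s + pos (tg (tg x b) c) a + (s + pos (tg x b) c + (s + pos x b + bt ψ x)) := h 2
  have g3 : bt ψ (tg (tg (tg (tg x b) c) a) b) = s + pos (tg (tg (tg x b) c) a) b
      + (s + pos (tg (tg x b) c) a + (s + pos (tg x b) c + (s + pos x b + bt ψ x))) := h 3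
  have key : ∀ s q B : ZMod 2, q + B + (s + q + B) = s := by decide
  apply hex_of_four hab hbc hac h0
  · unfold ty
    rw [g0]; exact key _ _ _
  · unfold ty
    rw [g1, g0]; exact key _ _ _
  · unfold ty
    rw [g2, g1]; exact key _ _ _
  · unfold ty
    rw [g3, g2]; exact key _ _ _

lemma P_le_of_mix {V κ : Type*} [Fintype V] [DecidableEq V] [Fintype κ] [Nonempty κ]
    (I : Finset V) (A : (V → κ) → Prop) (q : ℝ) (h : ∀ ψ, P (fun φ => A (mix I φ ψ)) ≤ q) :
    P A ≤ q := by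
  classical
  have h1 : P A = E (fun ψ => P (fun φ => A (mix I φ ψ))) := by
    unfold P
    rw [E_mix I (fun φ => if A φ then (1:ℝ) else 0)]
  rw [h1]
  refine (E_mono h).trans ?_
  rw [E_const]

lemma P_hex [NeZero p] {k : ℕ} (s : ZMod 2) (x : Finset (Fin n)) (hx : x.card = k) (a : Fin n)
    (ha : a ∉ x) (hn : n = 2 * k + 1) :
    P (fun ψ : Ix n → Lb p => ty ψ x a ≠ s ∧
      ∀ b c, b ∉ x → b ≠ a → c ∈ x → ¬ Hex ψ s x a b c) ≤ (15 / 16 : ℝ) ^ k := by
  classical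
  have hcard : x.card = ((insert a x)ᶜ).card := by
    rw [card_compl, Fintype.card_fin, card_insert_of_notMem ha]
    omega
  set eqv := Finset.equivOfCardEq hcard with heqv
  set f : Fin n → Fin n := fun c => if h : c ∈ x then (eqv ⟨c, h⟩).1 else c with hf
  have hfm : ∀ c ∈ x, f c ∉ x ∧ f c ≠ a := by
    intro c hc
    have h1 : f c = (eqv ⟨c, hc⟩).1 := by rw [hf]; simp only [hc, dif_pos]
    have h2 := (eqv ⟨c, hc⟩).2
    rw [← h1, mem_compl, mem_insert, not_or] at h2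
    exact ⟨h2.2, h2.1⟩
  have hfi : ∀ c ∈ x, ∀ c' ∈ x, f c = f c' → c = c' := by
    intro c hc c' hc' h
    have h1 : f c = (eqv ⟨c, hc⟩).1 := by rw [hf]; simp only [hc, dif_pos]
    have h2 : f c' = (eqv ⟨c', hc'⟩).1 := by rw [hf]; simp only [hc', dif_pos]
    rw [h1, h2] at h
    have h3 := eqv.injective (Subtype.ext h)
    exact congrArg Subtype.val h3
  set I : Finset (Ix n) := univ.filter (fun y => y ≠ (x, none) ∧ y ≠ (tg x a, none)) with hI
  have hIx : ((x, none) : Ix n) ∉ I := by rw [hI, mem_filter]; simp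
  have hIa : ((tg x a, none) : Ix n) ∉ I := by rw [hI, mem_filter]; simp
  apply P_le_of_mix I
  intro ψ
  have b0 : ∀ φ, bt (mix I φ ψ) x = bt ψ x := by
    intro φ; unfold bt; rw [mix_out hIx]
  have b1 : ∀ φ, bt (mix I φ ψ) (tg x a) = bt ψ (tg x a) := by
    intro φ; unfold bt; rw [mix_out hIa]
  have t0 : ∀ φ, ty (mix I φ ψ) x a = ty ψ x a := by
    intro φ; unfold ty; rw [b0, b1]
  by_cases hs : ty ψ x a = s
  · have h1 : P (fun φ => ty (mix I φ ψ) x a ≠ s ∧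
        ∀ b c, b ∉ x → b ≠ a → c ∈ x → ¬ Hex (mix I φ ψ) s x a b c) ≤ 0 := by
      unfold P
      refine (E_mono (g := fun _ => (0:ℝ)) (fun φ => ?_)).trans (le_of_eq (E_const 0))
      rw [if_neg (fun hh => hh.1 ((t0 φ).trans hs))]
    exact h1.trans (by positivity)
  -- the private vertices are re-randomised
  have hpvI : ∀ c ∈ x, ∀ j, (((pv x a (f c) c j, none) : Ix n)) ∈ I := by
    intro c hc j
    obtain ⟨p1, p2, p3⟩ := pv_spec ha (hfm c hc).1 (hfm c hc).2.symm hc j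
    rw [hI, mem_filter]
    refine ⟨mem_univ _, ?_, ?_⟩
    · intro h
      have h' : pv x a (f c) c j = x := congrArg Prod.fst h
      rw [h'] at p3
      rcases p3 with p3 | p3
      · exact p3 hc
      · exact (hfm c hc).1 p3
    · intro h
      have h' : pv x a (f c) c j = tg x a := congrArg Prod.fst h
      rw [h'] at p3
      rcases p3 with p3 | p3
      · apply p3
        rw [mem_tg]
        exact Or.inl ⟨hc, fun h => ha (h ▸ hc)⟩
      · rw [mem_tg] at p3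
        rcases p3 with p3 | p3
        · exact (hfm c hc).1 p3.1
        · exact (hfm c hc).2 p3.1
  have hbt : ∀ c ∈ x, ∀ j, ∀ φ, bt (mix I φ ψ) (pv x a (f c) c j) = bt φ (pv x a (f c) c j) := by
    intro c hc j φ; unfold bt; rw [mix_in (hpvI c hc j)]
  set T : Fin n → (Ix n → Lb p) → ℝ := fun c φ => 1 - ∏ j : Fin 4,
    (if bt φ (pv x a (f c) c j) = gm x a (f c) c s (bt ψ x) j then (1:ℝ) else 0) with hT
  have hT0 : ∀ c φ, 0 ≤ T c φ := by
    intro c φ
    rw [hT]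
    simp only [sub_nonneg]
    apply prod_le_one
    · intro j _; split_ifs <;> norm_num
    · intro j _; split_ifs <;> norm_num
  have hle : P (fun φ => ty (mix I φ ψ) x a ≠ s ∧
        ∀ b c, b ∉ x → b ≠ a → c ∈ x → ¬ Hex (mix I φ ψ) s x a b c)
        ≤ E (fun φ => ∏ c ∈ x, T c φ) := by
    unfold P
    refine E_mono (fun φ => ?_)
    by_cases hA : ty (mix I φ ψ) x a ≠ s ∧
        ∀ b c, b ∉ x → b ≠ a → c ∈ x → ¬ Hex (mix I φ ψ) s x a b c
    · rw [if_pos hA]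
      have h1 : ∀ c ∈ x, T c φ = 1 := by
        intro c hc
        have h2 := hA.2 (f c) c (hfm c hc).1 (hfm c hc).2 hc
        have h3 : ∃ j, bt φ (pv x a (f c) c j) ≠ gm x a (f c) c s (bt ψ x) j := by
          by_contra hcon
          simp only [not_exists, not_not] at hcon
          apply h2
          apply hex_of_bits (hfm c hc).2.symm
          · intro h; apply (hfm c hc).1; rw [h]; exact hc
          · intro h; apply ha; rw [h]; exact hc
          · exact hA.1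
          · intro j
            rw [hbt c hc, b0]
            exact hcon j
        obtain ⟨j, hj⟩ := h3
        rw [hT]
        simp only
        rw [prod_eq_zero (mem_univ j) (if_neg hj), sub_zero]
      rw [prod_congr rfl h1, prod_const_one]
    · rw [if_neg hA]
      exact prod_nonneg (fun c _ => hT0 c φ)
  refine hle.trans ?_
  rw [E_prod x (fun c => univ.image (fun j => ((pv x a (f c) c j, none) : Ix n)))]
  · have h1 : ∀ c ∈ x, E (T c) = 15 / 16 := by
      intro c hc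
      rw [hT]
      simp only
      rw [E_sub (fun _ => (1:ℝ)), E_const, E_bits]
      · norm_num
      · apply pv_injective (hfm c hc).2.symm
        · intro h; apply (hfm c hc).1; rw [h]; exact hc
        · intro h; apply ha; rw [h]; exact hc
    rw [prod_congr rfl h1, prod_const, hx]
  · intro c hc c' hc' hcc'
    rw [Finset.disjoint_left]
    intro y hy hy'
    rw [mem_image] at hy hy'
    obtain ⟨j, _, hj⟩ := hy
    obtain ⟨j', _, hj'⟩ := hy'
    have e1 : pv x a (f c) c j = pv x a (f c') c' j' := congrArg Prod.fst (hj.trans hj'.symm)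
    obtain ⟨_, _, p3⟩ := pv_spec ha (hfm c hc).1 (hfm c hc).2.symm hc j
    obtain ⟨q1, q2, _⟩ := pv_spec ha (hfm c' hc').1 (hfm c' hc').2.symm hc' j'
    rw [e1] at p3
    rcases p3 with p3 | p3
    · exact hcc' (q1 c hc p3)
    · exact hcc' (hfi c hc c' hc' (q2 (f c) (hfm c hc).1 (hfm c hc).2 p3))
  · intro c hc φ φ' h
    have h1 : ∀ j, bt φ (pv x a (f c) c j) = bt φ' (pv x a (f c) c j) := by
      intro j
      unfold bt
      rw [h _ (mem_image_of_mem _ (mem_univ j))]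
    rw [hT]
    simp only [h1]

theorem P_byp {n p k : ℕ} [NeZero p] (hn : n = 2 * k + 1) (s : ZMod 2) (x : Finset (Fin n)) :
    P (BypBad (p := p) k s x) ≤ n * (15 / 16 : ℝ) ^ k := by
  classical
  by_cases hx : x.card = k
  · have h1 : P (BypBad (p := p) k s x) ≤ P (fun ψ : Ix n → Lb p => ∃ a ∈ (univ.filter (fun a => a ∉ x)),
        (ty ψ x a ≠ s ∧ ∀ b c, b ∉ x → b ≠ a → c ∈ x → ¬ Hex ψ s x a b c)) := by
      refine P_mono (fun ψ hψ => ?_)
      obtain ⟨_, a, ha, h1, h2⟩ := hψ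
      exact ⟨a, mem_filter.2 ⟨mem_univ _, ha⟩, h1, h2⟩
    refine h1.trans ((P_exists _ _).trans ?_)
    have h2 : ∀ a ∈ (univ.filter (fun a => a ∉ x)), P (fun ψ : Ix n → Lb p => ty ψ x a ≠ s ∧
      ∀ b c, b ∉ x → b ≠ a → c ∈ x → ¬ Hex ψ s x a b c) ≤ (15 / 16 : ℝ) ^ k :=
      fun a ha => P_hex (p := p) s x hx a (mem_filter.1 ha).2 hn
    refine (sum_le_sum h2).trans ?_
    rw [sum_const, nsmul_eq_mul]
    apply mul_le_mul_of_nonneg_right _ (by positivity)
    have := card_le_univ (univ.filter (fun a => a ∉ x))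
    rw [Fintype.card_fin] at this
    exact_mod_cast this
  · have h1 : P (BypBad (p := p) k s x) ≤ 0 := by
      unfold P
      refine (E_mono (g := fun _ => (0:ℝ)) (fun φ => ?_)).trans (le_of_eq (E_const 0))
      rw [if_neg (fun hh => hx hh.1)]
    exact h1.trans (by positivity)

/-! ### boundary edges -/

lemma bdy_of {k : ℕ} {Q : Finset (Finset (Fin n))} {v : Finset (Fin n)} {e : Fin n}
    (he : e ∈ nb k v) (h1 : v ∈ Q) (h2 : tg v e ∉ Q) : (v, e) ∈ bdy k Q := by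
  unfold bdy
  rw [mem_filter, mem_product]
  exact ⟨⟨h1, mem_univ _⟩, he, h2⟩

/-- along an edge with exactly one end in `Q` there is a boundary edge of the same type -/
lemma step_bdy {k : ℕ} {Q : Finset (Finset (Fin n))} {ψ : Ix n → Lb p} {s : ZMod 2}
    {v : Finset (Fin n)} {e : Fin n} (he : e ∈ nb k v) (hs : ty ψ v e = s)
    (h : ¬ (v ∈ Q ↔ tg v e ∈ Q)) :
    ∃ z ∈ bdy k Q, ty ψ z.1 z.2 = s ∧ (z.1 = v ∨ z.1 = tg v e) := by
  by_cases h1 : v ∈ Q
  · have h2 : tg v e ∉ Q := fun h2 => h ⟨fun _ => h2, fun _ => h1⟩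
    exact ⟨(v, e), bdy_of he h1 h2, hs, Or.inl rfl⟩
  · have h2 : tg v e ∈ Q := by
      by_contra h2
      exact h ⟨fun h3 => absurd h3 h1, fun h3 => absurd h3 h2⟩
    refine ⟨(tg v e, e), bdy_of (mem_nb_tg he) h2 ?_, ?_, Or.inr rfl⟩
    · rw [tg_tg]; exact h1
    · simp only [ty_tg]; exact hs

lemma ham_symm {u v : Finset (Fin n)} {r : ℕ} (h : u ∈ ham v r) : v ∈ ham u r := by
  rw [mem_ham] at *
  rwa [symmDiff_comm]

lemma hex_bdy {k : ℕ} {Q : Finset (Finset (Fin n))} {ψ : Ix n → Lb p} {s : ZMod 2}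
    {x : Finset (Fin n)} (hx : x.card = k) {a b c : Fin n} (ha : a ∉ x) (hb : b ∉ x)
    (hab : b ≠ a) (hc : c ∈ x) (hH : Hex ψ s x a b c) (hQ : ¬ (x ∈ Q ↔ tg x a ∈ Q)) :
    ∃ z ∈ bdy k Q, ty ψ z.1 z.2 = s ∧ x ∈ ham z.1 3 ∧ tg x a ∈ ham z.1 3 := by
  have hca : c ≠ a := fun h => ha (h ▸ hc)
  have hcb : c ≠ b := fun h => hb (h ▸ hc)
  obtain ⟨s0, s1, s2, s3, s4⟩ := hH
  have n0 : b ∈ nb k x := by rw [nb_low hx]; exact mem_compl.2 hb
  have n1' : b ∈ nb k (tg x b) := mem_nb_tg n0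
  have c1 : (tg x b).card = k + 1 := card_tg_low hx hb
  have m1 : c ∈ tg x b := by rw [mem_tg]; exact Or.inl ⟨hc, hcb⟩
  have n1 : c ∈ nb k (tg x b) := by rw [nb_high c1]; exact m1
  have c2 : (tg (tg x b) c).card = k := card_tg_high c1 m1
  obtain ⟨v0, v1, v2, v3⟩ := vmem ha hb hab.symm hc
  have m2 : a ∉ tg (tg x b) c := by
    intro h
    rcases (v1 a).1 h with h | h
    · exact ha h.1
    · exact hab h.symm
  have n2 : a ∈ nb k (tg (tg x b) c) := by rw [nb_low c2]; exact mem_compl.2 m2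
  have c3 : (tg (tg (tg x b) c) a).card = k + 1 := card_tg_low c2 m2
  have m3 : b ∈ tg (tg (tg x b) c) a := (v2 b).2 (Or.inr (Or.inl rfl))
  have n3 : b ∈ nb k (tg (tg (tg x b) c) a) := by rw [nb_high c3]; exact m3
  have c4 : (tg (tg (tg (tg x b) c) a) b).card = k := card_tg_high c3 m3
  have m4 : c ∉ tg (tg (tg (tg x b) c) a) b := by
    intro h
    rcases (v3 c).1 h with h | h
    · exact h.2 rfl
    · exact hca h
  have n4 : c ∈ nb k (tg (tg (tg (tg x b) c) a) b) := by rw [nb_low c4]; exact mem_compl.2 m4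
  have e5 : tg (tg (tg (tg (tg x b) c) a) b) c = tg x a := tg_end x a b c
  -- distances from `x`
  have d0 : x ∈ ham x 3 := ham_self x 3
  have d1' : tg x b ∈ ham x 1 := tg_mem_ham x b
  have d1 : tg x b ∈ ham x 3 := ham_mono (by norm_num) d1'
  have d2' : tg (tg x b) c ∈ ham x 2 := ham_trans d1' (tg_mem_ham _ c)
  have d2 : tg (tg x b) c ∈ ham x 3 := ham_mono (by norm_num) d2'
  have d3 : tg (tg (tg x b) c) a ∈ ham x 3 := ham_trans d2' (tg_mem_ham _ a)
  have e4 : tg (tg (tg (tg x b) c) a) b = tg (tg x a) c := by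
    rw [← e5, tg_tg]
  have d4 : tg (tg (tg (tg x b) c) a) b ∈ ham x 3 := by
    rw [e4]
    exact ham_mono (by norm_num) (ham_trans (tg_mem_ham x a) (tg_mem_ham _ c))
  have d5 : tg x a ∈ ham x 3 := ham_mono (by norm_num) (tg_mem_ham x a)
  -- distances from `tg x a`
  have f5 : tg x a ∈ ham (tg x a) 3 := ham_self _ 3
  have f4' : tg (tg (tg (tg x b) c) a) b ∈ ham (tg x a) 1 := by
    rw [e4]; exact tg_mem_ham _ c
  have f4 := ham_mono (show 1 ≤ 3 by norm_num) f4'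
  have f3' : tg (tg (tg x b) c) a ∈ ham (tg x a) 2 := by
    have := ham_trans f4' (tg_mem_ham (tg (tg (tg (tg x b) c) a) b) b)
    rwa [tg_tg] at this
  have f3 := ham_mono (show 2 ≤ 3 by norm_num) f3'
  have f2 : tg (tg x b) c ∈ ham (tg x a) 3 := by
    have := ham_trans f3' (tg_mem_ham (tg (tg (tg x b) c) a) a)
    rwa [tg_tg] at this
  have f0' : x ∈ ham (tg x a) 1 := by
    have := tg_mem_ham (tg x a) a
    rwa [tg_tg] at this
  have f0 := ham_mono (show 1 ≤ 3 by norm_num) f0'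
  have f1 : tg x b ∈ ham (tg x a) 3 := ham_mono (by norm_num) (ham_trans f0' (tg_mem_ham x b))
  have fin : ∀ u w, (u ∈ ham x 3 ∧ u ∈ ham (tg x a) 3) → (w ∈ ham x 3 ∧ w ∈ ham (tg x a) 3) →
      (∃ z ∈ bdy k Q, ty ψ z.1 z.2 = s ∧ (z.1 = u ∨ z.1 = w)) →
      ∃ z ∈ bdy k Q, ty ψ z.1 z.2 = s ∧ x ∈ ham z.1 3 ∧ tg x a ∈ ham z.1 3 := by
    rintro u w ⟨u1, u2⟩ ⟨w1, w2⟩ ⟨z, hz, hz1, hz2 | hz2⟩
    · exact ⟨z, hz, hz1, hz2 ▸ ham_symm u1, hz2 ▸ ham_symm u2⟩
    · exact ⟨z, hz, hz1, hz2 ▸ ham_symm w1, hz2 ▸ ham_symm w2⟩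
  by_cases q0 : (x ∈ Q ↔ tg x b ∈ Q)
  swap
  · exact fin _ _ ⟨d0, f0⟩ ⟨d1, f1⟩ (step_bdy n0 s0 q0)
  by_cases q1 : (tg x b ∈ Q ↔ tg (tg x b) c ∈ Q)
  swap
  · exact fin _ _ ⟨d1, f1⟩ ⟨d2, f2⟩ (step_bdy n1 s1 q1)
  by_cases q2 : (tg (tg x b) c ∈ Q ↔ tg (tg (tg x b) c) a ∈ Q)
  swap
  · exact fin _ _ ⟨d2, f2⟩ ⟨d3, f3⟩ (step_bdy n2 s2 q2)
  by_cases q3 : (tg (tg (tg x b) c) a ∈ Q ↔ tg (tg (tg (tg x b) c) a) b ∈ Q)
  swap
  · exact fin _ _ ⟨d3, f3⟩ ⟨d4, f4⟩ (step_bdy n3 s3 q3)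
  by_cases q4 : (tg (tg (tg (tg x b) c) a) b ∈ Q ↔ tg (tg (tg (tg (tg x b) c) a) b) c ∈ Q)
  swap
  · exact fin _ _ ⟨d4, f4⟩ ⟨by rw [e5]; exact d5, by rw [e5]; exact f5⟩ (step_bdy n4 s4 q4)
  exact absurd (q0.trans (q1.trans (q2.trans (q3.trans (q4.trans (by rw [e5])))))) hQ

theorem byp_bdy {n p k : ℕ} (hn : n = 2 * k + 1) (ψ : Ix n → Lb p) (s : ZMod 2)
    (hψ : ∀ x, ¬ BypBad k s x ψ) (Q : Finset (Finset (Fin n))) (hQ : ∀ v ∈ Q, inL k v) :
    (bdy k Q).card ≤ (n + 1) ^ 5 * ((bdy k Q).filter (fun x => ty ψ x.1 x.2 = s)).card := by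
  classical
  have key : ∀ y ∈ bdy k Q, ∃ z ∈ (bdy k Q).filter (fun x => ty ψ x.1 x.2 = s),
      y.1 ∈ ham z.1 3 := by
    intro y hy
    have hy' := hy
    unfold bdy at hy'
    rw [mem_filter, mem_product] at hy'
    obtain ⟨⟨y1, _⟩, y2, y3⟩ := hy'
    by_cases hs : ty ψ y.1 y.2 = s
    · exact ⟨y, mem_filter.2 ⟨hy, hs⟩, ham_self _ _⟩
    · rcases nb_cases y2 with ⟨c1, c2⟩ | ⟨c1, c2⟩
      · have h1 := hψ y.1
        unfold BypBad at h1
        push Not at h1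
        obtain ⟨b, c, hb, hab, hc, hH⟩ := h1 c1 y.2 c2 hs
        obtain ⟨z, hz, hz1, hz2, _⟩ := hex_bdy c1 c2 hb hab hc hH
          (fun h => y3 (h.1 y1))
        exact ⟨z, mem_filter.2 ⟨hz, hz1⟩, hz2⟩
      · have e1 : (tg y.1 y.2).card = k := card_tg_high c1 c2
        have e2 : y.2 ∉ tg y.1 y.2 := by
          rw [mem_tg]
          tauto
        have h1 := hψ (tg y.1 y.2)
        unfold BypBad at h1
        push Not at h1
        obtain ⟨b, c, hb, hab, hc, hH⟩ := h1 e1 y.2 e2 (by rw [ty_tg]; exact hs)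
        obtain ⟨z, hz, hz1, _, hz2⟩ := hex_bdy (Q := Q) e1 e2 hb hab hc hH
          (fun h => y3 (h.2 (by rw [tg_tg]; exact y1)))
        rw [tg_tg] at hz2
        exact ⟨z, mem_filter.2 ⟨hz, hz1⟩, hz2⟩
  have hsub : bdy k Q ⊆ ((bdy k Q).filter (fun x => ty ψ x.1 x.2 = s)).biUnion
      (fun z => ham z.1 3 ×ˢ (univ : Finset (Fin n))) := by
    intro y hy
    obtain ⟨z, hz, hyz⟩ := key y hy
    rw [mem_biUnion]
    exact ⟨z, hz, mem_product.2 ⟨hyz, mem_univ _⟩⟩
  refine (card_le_card hsub).trans (card_biUnion_le.trans ?_)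
  have h2 : ∀ z ∈ (bdy k Q).filter (fun x => ty ψ x.1 x.2 = s),
      (ham z.1 3 ×ˢ (univ : Finset (Fin n))).card ≤ (n + 1) ^ 5 := by
    intro z _
    rw [card_product, card_univ, Fintype.card_fin]
    calc (ham z.1 3).card * n ≤ (n + 1) ^ 3 * (n + 1) :=
          Nat.mul_le_mul (card_ham _ _) (Nat.le_succ n)
      _ = (n + 1) ^ 4 := by ring
      _ ≤ (n + 1) ^ 5 := Nat.pow_le_pow_right (Nat.succ_pos n) (by norm_num)
  refine (sum_le_card_nsmul _ _ _ h2).trans (le_of_eq ?_)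
  rw [smul_eq_mul, mul_comm]

end Pool.Agent.SK.Lin.H37
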